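import Pool.Agent.Q134.CircMain

/-!
# Circumference-weighted local bound on clique counts, edge version

For `t ≥ 3` and every finite graph `G` with `m` edges, `∑_T binom γ(T) 2 / binom γ(T) t ≤ m`, where
`T` runs over the cliques with `t` vertices and `γ(T)` is the length of a longest cycle through all
vertices of `T`; equality holds if and only if each block of `G` is an isolated vertex or a complete
graph with at least `t` vertices.

Proof.  Take a longest path `x₀ x₁ … x_ℓ` and among these one for which the largest neighbour `x_j`
of `x₀` has the largest index; put `X = {x₀, …, x_j}`.  Every end `u` of a Hamilton path of `G[X]`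
from `x_j` has all its neighbours in `X`.  If some such `u` has degree at most `|X| / 2`, the cliques
through `u` contribute less than its degree (Vandermonde), and we delete `u`.  Otherwise a rotation
argument shows that every vertex of `X` except `x_j` is such an end; hence `X` is attached to the
rest only at `x_j`, each clique in `X` has `γ = |X|`, and the inequality for `G[X]` is the
monotonicity of clique densities.
-/

set_option autoImplicit false

open Finset
open Pool.Agent.Q134.Circ

namespace Pool.Agent.Results.MP_18736b_co.EdgeVersion

open Classical in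
lemma card_two {V : Type*} [Fintype V] (G : SimpleGraph V) [DecidableRel G.Adj] :
    (Kq 2 G).card = G.edgeFinset.card := by
  have h1 : ∑ v, G.degree v = 2 * G.edgeFinset.card := G.sum_degrees_eq_twice_card_edges
  have h2 : ∀ v, G.degree v = ((Kq 2 G).filter fun T => v ∈ T).card := by
    intro v
    rw [card_edges_at]
    unfold dg
    rw [← SimpleGraph.card_neighborFinset_eq_degree]
    congr 1
    ext w
    simp
  have h3 := sum_card_bipartiteAbove_eq_sum_card_bipartiteBelow
    (s := (univ : Finset V)) (t := Kq 2 G) (fun v T => v ∈ T)
  have h4 : ∑ a ∈ (univ : Finset V), #(bipartiteAbove (fun v T => v ∈ T) (Kq 2 G) a) =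
      2 * G.edgeFinset.card := by
    rw [← h1]
    refine sum_congr rfl fun v _ => ?_
    rw [h2]; rfl
  have h5 : ∑ b ∈ Kq 2 G, #(bipartiteBelow (fun v T => v ∈ T) (univ : Finset V) b) =
      2 * (Kq 2 G).card := by
    rw [sum_const_nat (m := 2), mul_comm]
    intro T hT
    rw [mem_Kq] at hT
    have : bipartiteBelow (fun v T => v ∈ T) (univ : Finset V) T = T := by
      ext v; simp [bipartiteBelow]
    rw [this, hT.2]
  omega

/-- **Theorem.** Let `t ≥ 3`, and let `G` be a finite graph.  The sum over all cliques `T` of `G` with
`t` vertices of `binom γ 2 / binom γ t`, `γ` the length of a longest cycle of `G` through all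
vertices of `T`, is at most the number of edges of `G`, with equality if and only if each block of
`G` is an isolated vertex or a complete graph on at least `t` vertices. -/
theorem result (t : ℕ) (ht : 3 ≤ t) {V : Type*} [Fintype V] [DecidableEq V] (G : SimpleGraph V)
    [DecidableRel G.Adj] :
    ∑ T ∈ G.cliqueFinset t, weight t G T ≤ (G.edgeFinset.card : ℚ) ∧
      (∑ T ∈ G.cliqueFinset t, weight t G T = (G.edgeFinset.card : ℚ) ↔
        ∀ S : Set V, IsBlock G S →
          (∃ v, S = {v} ∧ ∀ w, ¬ G.Adj v w) ∨ (t ≤ S.ncard ∧ G.IsClique S)) := by
  have h1 : ∑ T ∈ G.cliqueFinset t, weight t G T = Sg t G := by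
    unfold Sg
    refine sum_congr ?_ fun T _ => rfl
    ext T
    rw [SimpleGraph.mem_cliqueFinset_iff, mem_Kq]
  have h2 := main t ht _ G (card_two G)
  rw [h1]
  refine ⟨h2.1, h2.2.trans ?_⟩
  constructor
  · intro h S hS
    rcases h S hS with ⟨v, rfl⟩ | h'
    · exact Or.inl ⟨v, rfl, isolated_of_block hS⟩
    · exact Or.inr h'
  · intro h S hS
    rcases h S hS with ⟨v, hv, -⟩ | h'
    · exact Or.inl ⟨v, hv⟩
    · exact Or.inr h'

end Pool.Agent.Results.MP_18736b_co.EdgeVersion
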